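import Pool.Agent.Helper43.Gm.Goals

/-! # Packet F1 (MP_d3128a_ag): from the game to regions, injectivity -/

set_option autoImplicit false

namespace Pool.Agent.Helper43.Gm.PkF1

open Finset Pool.Agent.Lead.Sh Pool.Agent.Helper43.Gm

/-- the rows in the opposite order -/
lemma pri_rev {R N : ℕ} {ν : ℕ → ℕ} {n : ℕ → ℕ → ℕ} {π ε : ℕ → ℤ} (h : Pri R ν n π ε N) :
    Pri R ν (fun c y => n c (R - 1 - y)) (fun y => π (R - 1 - y)) (fun c => - ε c) N := by
  classical
  intro c hc y hy hn
  obtain ⟨U, h1, h2, h3⟩ := h c hc (R - 1 - y) (by omega) hn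
  refine ⟨(U.filter (fun u => u < R)).image (fun u => R - 1 - u), ?_, ?_, ?_⟩
  · intro hmem
    rw [mem_image] at hmem
    obtain ⟨u, hu, he⟩ := hmem
    rw [mem_filter] at hu
    apply h1
    have : R - 1 - y = u := by omega
    rw [this]
    exact hu.1
  · have := (card_image_le (s := U.filter (fun u => u < R)) (f := fun u => R - 1 - u)).trans
      (card_filter_le U _)
    show _ + n c (R - 1 - y) ≤ ν c
    omega
  · intro y' hy' hU' hne
    have hU : R - 1 - y' ∉ U := by
      intro hU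
      apply hU'
      rw [mem_image]
      exact ⟨R - 1 - y', mem_filter.2 ⟨hU, by omega⟩, by omega⟩
    have k := h3 (R - 1 - y') (by omega) hU (by omega)
    have e1 : ((R - 1 - y' : ℕ) : ℤ) = (R : ℤ) - 1 - y' := by omega
    have e2 : ((R - 1 - y : ℕ) : ℤ) = (R : ℤ) - 1 - y := by omega
    rw [e1, e2] at k
    show π (R - 1 - y') - -ε c * (y' : ℤ) < π (R - 1 - y) - -ε c * (y : ℤ)
    linarith

lemma reg_card {p R : ℕ} {s ℓ : ℕ → ℕ} {D : Finset (ℕ × ℕ)} (h : Reg p R s ℓ D) :
    ∑ y ∈ range R, ℓ y ≤ D.card := by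
  classical
  have h1 : ∑ y ∈ range R, ℓ y =
      ((range R).sigma (fun y => Ico (s y) (s y + ℓ y))).card := by
    rw [card_sigma]
    refine sum_congr rfl (fun y _ => ?_)
    rw [Nat.card_Ico]
    omega
  rw [h1]
  refine card_le_card_of_injOn (fun x : (_ : ℕ) × ℕ => ((x.2, x.1 - p * x.2) : ℕ × ℕ)) ?_ ?_
  · rintro ⟨y, k⟩ hx
    simp only [coe_sigma, Set.mem_sigma_iff, mem_coe, mem_range, mem_Ico] at hx
    have hp := h.2 y hx.1 k hx.2.1 hx.2.2
    show ((k, y - p * k) : ℕ × ℕ) ∈ D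
    rw [h.1]
    have e : p * k + (y - p * k) = y := by omega
    show p * k + (y - p * k) < R ∧ s (p * k + (y - p * k)) ≤ k ∧
      k < s (p * k + (y - p * k)) + ℓ (p * k + (y - p * k))
    rw [e]
    exact ⟨hx.1, hx.2.1, hx.2.2⟩
  · rintro ⟨y, k⟩ hx ⟨y', k'⟩ hx' he
    simp only [coe_sigma, Set.mem_sigma_iff, mem_coe, mem_range, mem_Ico] at hx hx'
    have hp := h.2 y hx.1 k hx.2.1 hx.2.2
    have hp' := h.2 y' hx'.1 k' hx'.2.1 hx'.2.2
    simp only [Prod.mk.injEq] at he
    obtain ⟨rfl, he⟩ := he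
    have : y = y' := by omega
    subst this
    rfl

theorem goalF1 (hA : GoalA) (hE : GoalE1) : GoalF1 := by
  classical
  intro p M R s ℓ ℓ' D Bd hReg hl hM hR h0 hdrop hgood m a b W hab hm hW hD
  set N := b - a with hN
  set ν : ℕ → ℕ := fun c => if a + c < b then m (a + c) else 1 with hν
  have hν1 : ∀ c, 1 ≤ ν c := by
    intro c
    simp only [hν]
    split_ifs with h
    · exact (hm _ (by omega) h).1
    · exact le_rfl
  have hνM : ∀ c, ν c ≤ M := by
    intro c
    simp only [hν]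
    split_ifs with h
    · exact (hm _ (by omega) h).2
    · exact hM
  have hsumν : ∑ c ∈ range N, (ν c + 1).choose 2 = ∑ k ∈ Ico a b, (m k + 1).choose 2 := by
    rw [sum_Ico_eq_sum_range]
    refine sum_congr rfl (fun c hc => ?_)
    rw [mem_range] at hc
    simp only [hν]
    rw [if_pos (by omega)]
  have hsuml : ∑ y ∈ range R, ℓ' y ≤ D.card := by
    refine le_trans (le_of_eq ?_) (reg_card hReg)
    rcases hl with rfl | hl
    · rfl
    · rw [← sum_range_reflect ℓ R]
      exact sum_congr rfl (fun y hy => hl y (mem_range.1 hy))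
  obtain ⟨n, π, ε, hP, hn⟩ := hE M R ν ℓ' Bd hM hR hν1 hνM h0 hdrop hgood W N hW
    (by rw [hsumν]; omega)
  have key : Inj D (rows ν (range N)) := by
    rcases hl with rfl | hl
    · exact hA p R s ℓ' D (fun d hd => (hReg.1 d).1 hd) N ν n π ε hP hn
    · refine hA p R s ℓ D (fun d hd => (hReg.1 d).1 hd) N ν _ _ _ (pri_rev hP) ?_
      intro y hy
      have h1 := hn (R - 1 - y) (by omega)
      rw [hl (R - 1 - y) (by omega), show R - 1 - (R - 1 - y) = y by omega] at h1
      exact h1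
  refine Pool.Agent.Helper43.Ah.inj_relabel (fun c => a + c) ?_ ?_ ?_ key
  · intro c hc
    rw [mem_range] at hc
    show a + c ∈ Ico a b
    rw [mem_Ico]
    omega
  · intro c _ c' _ he
    have : a + c = a + c' := he
    omega
  · intro c hc
    rw [mem_range] at hc
    show m (a + c) = ν c
    simp only [hν]
    rw [if_pos (by omega)]

end Pool.Agent.Helper43.Gm.PkF1
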